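import Pool.Agent.KS6_28.MinRank.Final

/-!
# The complexity of approximating the minimum rank: the threshold is the factor two

The minimum rank over the reals is at most twice the minimum rank over the complex numbers, so from
the factor two on the gap problem reduces to the existential theory of the complex numbers.  It is
hard for that theory for every constant factor: a system of elementary equations
`x_i + x_j = x_k`, `x_i x_j = x_k`, `x_i = 1` is encoded by the moment matrix `y (a + b)` of a
functional on polynomials of bounded degree (the multiplicative equations become identities between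
variables, up to linear equations) and, for each linear equation `a + b = c` between moments, a
block `a (I ⊗ J) + b (J ⊗ I)` of size `k ^ 2` with the diagonal replaced by `c`, which has rank at
most `2 k` if the equation holds and at least `k ^ 2 - 2 k` if it fails.  If the moment matrix has
rank at most `d`, it is flat somewhere, the shifts act as commuting matrices on a nonzero space, and
a common eigenvector is a solution of the system.
-/

namespace Pool.Agent.Results.MP_3930bf_lc.ThresholdTwo

open Pool.Agent.H606R2.MinRank Pool.Agent.KS6_28.MinRank Pool.Agent.NPC.KS28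

/-- (1) For `0 ≤ ε < 1` the problem `GapMinRank_ε` is `∃ℝ`-complete.  (2) For `ε ≥ 1` it is
`∃ℂ`-complete, and it is `∃ℝ`-hard if and only if the existential theory of the reals reduces to the
existential theory of the complex numbers.  (3) Over the complex numbers the gap problem is
`∃ℂ`-complete for every `ε ≥ 0`.  (4) `GapMinRank_ε` is `NP`-hard for every `ε`. -/
theorem result :
    (∀ ε : ℝ, 0 ≤ ε → ε < 1 → ExistsRHard (GapMinRank ε) ∧ InExistsR (GapMinRank ε)) ∧
    (∀ ε : ℝ, 1 ≤ ε → ExistsCHard (GapMinRank ε) ∧ InExistsC (GapMinRank ε) ∧
      (ExistsRHard (GapMinRank ε) ↔ ETRReducesToETC)) ∧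
    (∀ ε : ℝ, 0 ≤ ε → ExistsCHard (GapMinRankC ε) ∧ InExistsC (GapMinRankC ε)) ∧
    (∀ ε : ℝ, NPHardPromise (GapMinRank ε)) :=
  ⟨fun _ h0 h1 => ⟨existsRHard_gap h1, inExistsR_gap h0⟩,
    fun _ h => ⟨existsCHard_gap _, inExistsC_gap h, hard_iff h⟩,
    fun _ h => ⟨existsCHard_gapC _, inExistsC_gapC h⟩, npHard_gap⟩

end Pool.Agent.Results.MP_3930bf_lc.ThresholdTwo
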